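import Mathlib
import Pool.Agent.S09371

set_option autoImplicit false

namespace Pool.Agent.Results.MP_4b528e_lc.DensityOneBelow

open Filter

/-- the set `S` has asymptotic density `1` -/
def HasDensityOne (S : Set ℕ) : Prop :=
  Tendsto (fun m : ℕ => ((S ∩ Set.Iio m).ncard : ℝ) / (m : ℝ)) atTop (nhds 1)

/-- the partial function `f` is a generic description of `A`: it agrees with the characteristic
function of `A` on its domain, and its domain has density `1` -/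
def IsGenericDescription (A : Set ℕ) (f : ℕ →. Bool) : Prop :=
  (∀ n : ℕ, ∀ b ∈ f n, (b = true ↔ n ∈ A)) ∧ HasDensityOne {n | (f n).Dom}

/-- some partial computable function is a generic description of `A` -/
def IsGenericallyComputable (A : Set ℕ) : Prop :=
  ∃ f : ℕ →. Bool, Partrec f ∧ IsGenericDescription A f

/-- some computable set `C` agrees with `A` on a set of density `1` -/
def IsCoarselyComputable (A : Set ℕ) : Prop :=
  ∃ c : ℕ → Bool, Computable c ∧ HasDensityOne {n | c n = true ↔ n ∈ A}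

/-- the graph of a partial function, coded as a set of numbers `⟨n, f n⟩` -/
def graph (f : ℕ →. Bool) : Set ℕ := {x | ∃ n : ℕ, ∃ b ∈ f n, x = Nat.pair n (if b then 1 else 0)}

/-- the set obtained from `X` by the enumeration operator with axioms `W` -/
def enumOp (W : ℕ × List ℕ → Prop) (X : Set ℕ) : Set ℕ :=
  {y | ∃ l : List ℕ, (∀ z ∈ l, z ∈ X) ∧ W (y, l)}

/-- `B` is uniformly generically reducible to `A` -/
def UGReducible (B A : Set ℕ) : Prop :=
  ∃ W : ℕ × List ℕ → Prop, REPred W ∧ ∀ f : ℕ →. Bool, IsGenericDescription A f →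
    ∃ g : ℕ →. Bool, IsGenericDescription B g ∧ enumOp W (graph f) = graph g

/-- a set of codes that is the graph of a partial description of `B` -/
lemma exists_graph {B : Set ℕ} {Y : Set ℕ}
    (h : ∀ x ∈ Y, ∃ n j : ℕ, x = Nat.pair n j ∧ ((j = 1 ∧ n ∈ B) ∨ (j = 0 ∧ n ∉ B))) :
    ∃ g : ℕ →. Bool, (∀ n : ℕ, ∀ b ∈ g n, (b = true ↔ n ∈ B)) ∧
      {n | (g n).Dom} = {n | ∃ j : ℕ, Nat.pair n j ∈ Y} ∧ Y = graph g := by
  classical
  let g : ℕ →. Bool := fun n => ⟨∃ j : ℕ, Nat.pair n j ∈ Y, fun _ => decide (n ∈ B)⟩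
  have hg : ∀ n b, b ∈ g n ↔ (∃ j : ℕ, Nat.pair n j ∈ Y) ∧ decide (n ∈ B) = b := by
    intro n b
    constructor
    · rintro ⟨h1, h2⟩
      exact ⟨h1, h2⟩
    · rintro ⟨h1, h2⟩
      exact ⟨h1, h2⟩
  refine ⟨g, ?_, rfl, ?_⟩
  · intro n b hb
    obtain ⟨_, h2⟩ := (hg n b).1 hb
    rw [← h2]
    simp
  · ext x
    simp only [graph, Set.mem_ofPred_eq]
    constructor
    · intro hx
      obtain ⟨n, j, rfl, hj⟩ := h x hx
      refine ⟨n, decide (n ∈ B), (hg n _).2 ⟨⟨j, hx⟩, rfl⟩, ?_⟩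
      rcases hj with ⟨rfl, h1⟩ | ⟨rfl, h1⟩ <;> simp [h1]
    · rintro ⟨n, b, hb, rfl⟩
      obtain ⟨⟨j, hj⟩, h2⟩ := (hg n b).1 hb
      obtain ⟨n', j', e, hj'⟩ := h _ hj
      obtain ⟨rfl, rfl⟩ := Nat.pair_eq_pair.1 e
      rw [← h2]
      rcases hj' with ⟨rfl, h1⟩ | ⟨rfl, h1⟩ <;> simpa [h1] using hj

lemma graph_spec {A : Set ℕ} {f : ℕ →. Bool} (hf : ∀ n : ℕ, ∀ b ∈ f n, (b = true ↔ n ∈ A)) :
    (∀ x ∈ graph f, ∃ n j : ℕ, x = Nat.pair n j ∧ ((j = 1 ∧ n ∈ A) ∨ (j = 0 ∧ n ∉ A))) ∧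
      {n : ℕ | ∃ j : ℕ, Nat.pair n j ∈ graph f} = {n | (f n).Dom} := by
  constructor
  · rintro x ⟨n, b, hb, rfl⟩
    refine ⟨n, _, rfl, ?_⟩
    have := hf n b hb
    cases b <;> simp_all
  · ext n
    simp only [graph, Set.mem_ofPred_eq]
    constructor
    · rintro ⟨j, n', b, hb, e⟩
      obtain ⟨rfl, _⟩ := Nat.pair_eq_pair.1 e
      exact Part.dom_iff_mem.2 ⟨b, hb⟩
    · intro h
      obtain ⟨b, hb⟩ := Part.dom_iff_mem.1 h
      exact ⟨_, n, b, hb, rfl⟩

/-- For every set `A` that is not generically computable there is a set `B`, uniformly generically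
reducible to `A`, that has density `1` (so that `B` is coarsely computable) and is not generically
computable. -/
theorem result : ∀ A : Set ℕ, ¬ IsGenericallyComputable A →
    ∃ B : Set ℕ, UGReducible B A ∧ HasDensityOne B ∧ IsCoarselyComputable B ∧
      ¬ IsGenericallyComputable B := by
  intro A hA
  obtain ⟨B, ⟨W, hW, hWX⟩, hB, hd⟩ := Pool.Agent.S09371.result A (by
    rintro ⟨φ, h1, h2, h3⟩
    exact hA ⟨φ, h1, h2, h3⟩)
  refine ⟨B, ⟨W, hW, fun f hf => ?_⟩, hd, ⟨fun _ => true, Computable.const true, ?_⟩, ?_⟩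
  · obtain ⟨h1, h2⟩ := graph_spec hf.1
    obtain ⟨h3, h4⟩ := hWX (graph f) ⟨h1, by rw [h2]; exact hf.2⟩
    obtain ⟨g, h5, h6, h7⟩ := exists_graph h3
    refine ⟨g, ⟨h5, ?_⟩, h7⟩
    rw [h6]
    exact h4
  · have e : {n | (true = true ↔ n ∈ B)} = B := by ext n; simp
    show HasDensityOne {n | (true = true ↔ n ∈ B)}
    rw [e]
    exact hd
  · rintro ⟨φ, h1, h2, h3⟩
    exact hB ⟨φ, h1, h2, h3⟩

end Pool.Agent.Results.MP_4b528e_lc.DensityOneBelow
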